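import Pool.Agent.Helper58.DH.Goals

/-!
# Project DH (MP_06d934_gt): packet Q_UPP (the upper bound for the general system)
-/

set_option autoImplicit false

namespace Pool.Agent.Helper93.DH

open Pool.Agent.Helper58.DH Finset

theorem cs_comm (x y z : ℝ) : cs x y z = cs y x z := by
  unfold cs
  rw [add_comm (x ^ 2), mul_right_comm]

theorem cs_low {x y z C : ℝ} (hx : 0 < x) (hxy : x ≤ y) (hC : 1 ≤ C) (hz : 0 < z) (h : z ≤ y + C * x) :
    -cs x y z ≤ C + C ^ 2 := by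
  have hy : 0 < y := lt_of_lt_of_le hx hxy
  have hd : 0 < 2 * x * y := by positivity
  have h1 : z ^ 2 ≤ (y + C * x) ^ 2 := pow_le_pow_left₀ hz.le h 2
  have h2 : x ^ 2 ≤ x * y := by nlinarith
  unfold cs
  rw [← neg_div, div_le_iff₀ hd]
  nlinarith [mul_nonneg (sq_nonneg C) (sub_nonneg.2 h2), mul_pos hx hy, sq_nonneg x,
    mul_nonneg (sq_nonneg C) (mul_pos hx hy).le]

/-- **Q_UPP**. -/
theorem q_upp : Q_UPP := by
  intro n d A B₀ C hA hd hC
  refine ⟨|B₀| + ∑ e, (∑ j, ∑ k, A e j k) * (C + C ^ 2) / d e, fun β x hβ hS hQ e ↦ ?_⟩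
  have hK : 0 ≤ C + C ^ 2 := by positivity
  obtain ⟨m, -, hm⟩ := Finset.exists_max_image univ x ⟨e, mem_univ e⟩
  refine (hm e (mem_univ e)).trans ?_
  have hrow : ∀ e, 0 ≤ (∑ j, ∑ k, A e j k) * (C + C ^ 2) / d e := fun e ↦
    div_nonneg (mul_nonneg (sum_nonneg fun j _ ↦ sum_nonneg fun k _ ↦ hA.1 e j k) hK) (hd e).le
  have key : ∀ j k, -(A m j k * cs (x j) (x k) (x m)) ≤ A m j k * (C + C ^ 2) := by
    intro j k
    rcases eq_or_ne (A m j k) 0 with h0 | h0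
    · rw [h0]
      simp
    have h1 : -cs (x j) (x k) (x m) ≤ C + C ^ 2 := by
      rcases le_total (x j) (x k) with h2 | h2
      · have h3 : A j k m ≠ 0 := by
          rw [hA.2.2 j k m, hA.2.1 j m k]
          exact h0
        exact cs_low (hS.1 j) h2 hC (hS.1 m) (hQ j k m h3 h2 (hm k (mem_univ k)))
      · have h3 : A k j m ≠ 0 := by
          rw [hA.2.2 k j m, hA.2.1 k m j, hA.2.2 m k j]
          exact h0
        rw [cs_comm]
        exact cs_low (hS.1 k) h2 hC (hS.1 m) (hQ k j m h3 h2 (hm j (mem_univ j)))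
    have h2 := mul_le_mul_of_nonneg_left h1 (hA.1 m j k)
    linarith
  have hsum : -(∑ j, ∑ k, A m j k * cs (x j) (x k) (x m)) ≤ (∑ j, ∑ k, A m j k) * (C + C ^ 2) := by
    rw [← sum_neg_distrib, sum_mul]
    refine sum_le_sum fun j _ ↦ ?_
    rw [← sum_neg_distrib, sum_mul]
    exact sum_le_sum fun k _ ↦ key j k
  have heq := hS.2 m
  have hb : d m * β m ≤ d m * |B₀| := mul_le_mul_of_nonneg_left ((hβ m).trans (le_abs_self _)) (hd m).le
  have h3 : d m * x m ≤ d m * |B₀| + (∑ j, ∑ k, A m j k) * (C + C ^ 2) := by linarith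
  have h4 : x m ≤ |B₀| + (∑ j, ∑ k, A m j k) * (C + C ^ 2) / d m := by
    have h5 : d m * (|B₀| + (∑ j, ∑ k, A m j k) * (C + C ^ 2) / d m) =
        d m * |B₀| + (∑ j, ∑ k, A m j k) * (C + C ^ 2) := by
      rw [mul_add, mul_div_cancel₀ _ (hd m).ne']
    exact le_of_mul_le_mul_left (h3.trans h5.symm.le) (hd m)
  have h6 := single_le_sum (f := fun e ↦ (∑ j, ∑ k, A e j k) * (C + C ^ 2) / d e)
    (fun e _ ↦ hrow e) (mem_univ m)
  have h7 : (∑ j, ∑ k, A m j k) * (C + C ^ 2) / d m ≤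
      ∑ e, (∑ j, ∑ k, A e j k) * (C + C ^ 2) / d e := h6
  linarith

end Pool.Agent.Helper93.DH
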